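import Pool.Agent.helper87.AU.SpecQ2

/-!
# Project au, module QH4: Riemann-Hurwitz
-/

namespace Pool.Agent.helper53.AU

open scoped Classical IntermediateField
open IntermediateField (fixedField)

noncomputable section

variable {k F : Type} [Field k] [Field F] [Algebra k F]

theorem QH4_orbit (H : Subgroup (F ≃ₐ[k] F)) [Finite H] (P : Place k F) :
    Nat.card (MulAction.orbit H P) * stabCard H P = Nat.card H := by
  let _ : Fintype H := Fintype.ofFinite H
  have _ : Finite (MulAction.orbit H P) := Set.Finite.to_subtype (Set.finite_range _)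
  let _ : Fintype (MulAction.orbit H P) := Fintype.ofFinite _
  let _ : Fintype (MulAction.stabilizer H P) := Fintype.ofFinite _
  have h1 := MulAction.card_orbit_mul_card_stabilizer_eq_card_group H P
  rw [← Nat.card_eq_fintype_card, ← Nat.card_eq_fintype_card, ← Nat.card_eq_fintype_card] at h1
  exact h1

/-- the sum over the places of a function pulled back from the fixed field -/
theorem QH4_conorm (H : Subgroup (F ≃ₐ[k] F)) [Finite H]
    (π : Place k F → Place k (fixedField H)) (e : Place k F → ℕ)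
    (he : ∀ P, e P = stabCard H P)
    (hsurj : ∀ Q, ∃ P, π P = Q)
    (horb : ∀ P P' : Place k F, π P' = π P ↔ ∃ s ∈ H, P' = s • P)
    (hconst : ∀ P P' : Place k F, π P' = π P → e P' = e P)
    (a : Place k (fixedField H) → ℤ) (ha : (Function.support a).Finite) :
    (Function.support fun P : Place k F => (e P : ℤ) * a (π P)).Finite ∧
    ∑ᶠ P : Place k F, (e P : ℤ) * a (π P) = (Nat.card H : ℤ) * ∑ᶠ Q, a Q := by
  have hfib : ∀ P : Place k F, {P' | π P' = π P} = MulAction.orbit H P := by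
    intro P
    ext P'
    rw [Set.mem_ofPred_eq, horb, MulAction.mem_orbit_iff]
    constructor
    · rintro ⟨s, hs, rfl⟩
      exact ⟨⟨s, hs⟩, rfl⟩
    · rintro ⟨s, rfl⟩
      exact ⟨s, s.2, rfl⟩
  have hfin : ∀ Q, {P' | π P' = Q}.Finite := by
    intro Q
    obtain ⟨P, rfl⟩ := hsurj Q
    rw [hfib]
    exact Set.finite_range _
  have hT : (⋃ Q ∈ Function.support a, {P' | π P' = Q}).Finite :=
    ha.biUnion fun Q _ => hfin Q
  have hsub : (Function.support fun P : Place k F => (e P : ℤ) * a (π P)) ⊆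
      ⋃ Q ∈ Function.support a, {P' | π P' = Q} := by
    intro P hP
    rw [Function.mem_support] at hP
    simp only [Set.mem_iUnion, Set.mem_ofPred_eq, exists_prop]
    exact ⟨π P, right_ne_zero_of_mul hP, rfl⟩
  refine ⟨hT.subset hsub, ?_⟩
  rw [finsum_eq_sum_of_support_subset (s := hT.toFinset) _ (by simpa using hsub),
    finsum_eq_sum_of_support_subset (s := ha.toFinset) a (by simp), Finset.mul_sum]
  have hmap : ∀ P ∈ hT.toFinset, π P ∈ ha.toFinset := by
    intro P hP
    simp only [Set.Finite.mem_toFinset, Set.mem_iUnion, Set.mem_ofPred_eq, exists_prop] at hP ⊢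
    obtain ⟨Q, hQ, rfl⟩ := hP
    exact hQ
  rw [← Finset.sum_fiberwise_of_maps_to hmap]
  refine Finset.sum_congr rfl fun Q hQ => ?_
  obtain ⟨P, rfl⟩ := hsurj Q
  have h1 : ∀ P' ∈ Finset.filter (fun P' => π P' = π P) hT.toFinset,
      (e P' : ℤ) * a (π P') = (e P : ℤ) * a (π P) := by
    intro P' hP'
    have h2 := (Finset.mem_filter.1 hP').2
    rw [h2, hconst P P' h2]
  rw [Finset.sum_congr rfl h1, Finset.sum_const, nsmul_eq_mul, ← mul_assoc]
  congr 1
  have hcard : (Finset.filter (fun P' => π P' = π P) hT.toFinset).card =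
      Nat.card (MulAction.orbit H P) := by
    rw [← Set.ncard_coe_finset, Nat.card_coe_set_eq]
    congr 1
    rw [← hfib]
    ext P'
    simp only [Finset.coe_filter, Set.Finite.mem_toFinset, Set.mem_iUnion, Set.mem_ofPred_eq,
      exists_prop, and_iff_right_iff_imp]
    intro h
    refine ⟨π P, ?_, h⟩
    simpa using hQ
  rw [hcard, he P]
  exact_mod_cast QH4_orbit H P

theorem QH4 (hR2 : QR2_stmt) (hF11 : QF11_stmt) (hE1 : QE1_stmt) (hE2 : QE2_stmt) (hE3 : QE3_stmt)
    (hE4 : QE4_stmt) (hE5 : QE5_stmt) (hE6 : QE6_stmt) (hH1 : QH1_stmt) (hH3 : QH3_stmt) :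
    QH4_stmt := by
  intro k F _ _ _ _ hF g hg H hH
  have _ := hH
  obtain ⟨hE, -, -⟩ := hE1 k F hF H hH
  obtain ⟨γ, hγ⟩ := hR2 k (fixedField H) hE
  obtain ⟨D, D₀, hD, hD₀, hinv, hres⟩ := hE6 k F hF H hH
  obtain ⟨x, hx⟩ : ∃ x, D₀ x ≠ 0 := by
    by_contra h
    push Not at h
    exact hD₀ (Derivation.ext h)
  have hDx : D (x : F) ≠ 0 := by
    rw [← hres]
    simpa using hx
  obtain ⟨hfinF, hsumF⟩ := hH1 k F hF g hg D (x : F) hDx
  obtain ⟨hfinE, hsumE⟩ := hH1 k (fixedField H) hE γ hγ D₀ x hx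
  choose π e hπ using fun P => (hE2 k F hF H hH P).1
  have he : ∀ P, e P = stabCard H P := fun P => hE5 k F hF H hH P (π P) (e P) (hπ P)
  have hsurj : ∀ Q, ∃ P, π P = Q := by
    intro Q
    obtain ⟨P, e', h⟩ := hE3 k F hF H hH Q
    exact ⟨P, ((hE2 k F hF H hH P).2 _ _ _ _ (hπ P) h).1⟩
  have horb : ∀ P P' : Place k F, π P' = π P ↔ ∃ s ∈ H, P' = s • P := by
    intro P P'
    have h4 := (hE4 k F hF H hH P P' (π P) (e P) (hπ P)).1
    rw [← h4]
    constructor
    · intro h
      exact ⟨e P', h ▸ hπ P'⟩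
    · rintro ⟨e', h⟩
      exact ((hE2 k F hF H hH P').2 _ _ _ _ (hπ P') h).1
  have hconst : ∀ P P' : Place k F, π P' = π P → e P' = e P := by
    intro P P' h
    obtain ⟨s, hs, rfl⟩ := (horb P P').1 h
    have h5 := (hE4 k F hF H hH P P (π P) (e P) (hπ P)).2 s hs
    exact ((hE2 k F hF H hH (s • P)).2 _ _ _ _ (hπ _) h5).2
  obtain ⟨hfin1, hsum1⟩ := QH4_conorm H π e he hsurj horb hconst
    (fun Q : Place k (fixedField H) => Q.dord D₀ x) hfinE
  refine ⟨γ, ?_⟩
  set d : Place k F → ℤ := fun P => ∑ᶠ s : H,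
    if (s : F ≃ₐ[k] F) ≠ 1 ∧ (s : F ≃ₐ[k] F) • P = P then ((P.jump s : ℤ) + 1) else 0 with hd
  have hkey : ∀ P : Place k F, P.dord D (x : F) = (e P : ℤ) * (π P).dord D₀ x + d P := by
    intro P
    have h3 := hH3 k F hF H hH P (π P) (e P) (hπ P) D D₀ hD hD₀ hinv hres
    have h4 : P.ord (D (x : F)) = (e P : ℤ) * (π P).ord (D₀ x) := by
      rw [← hres]
      exact (hπ P).2 (D₀ x)
    rw [hd]
    simp only [Place.dord]
    rw [← h3, h4]
    ring
  have hdfin : (Function.support d).Finite := by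
    have hfix : (⋃ s ∈ {s : F ≃ₐ[k] F | s ∈ H ∧ s ≠ 1}, {P : Place k F | s • P = P}).Finite := by
      refine Set.Finite.biUnion ?_ fun s hs => hF11 k F hF s hs.2
      exact (Set.toFinite (H : Set (F ≃ₐ[k] F))).subset fun s hs => hs.1
    refine hfix.subset ?_
    intro P hP
    by_contra hcon
    apply hP
    have : ∀ s : H, (if (s : F ≃ₐ[k] F) ≠ 1 ∧ (s : F ≃ₐ[k] F) • P = P then
        ((P.jump s : ℤ) + 1) else 0) = 0 := by
      intro s
      rw [if_neg]
      rintro ⟨h1, h2⟩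
      apply hcon
      simp only [Set.mem_iUnion, Set.mem_ofPred_eq, exists_prop]
      exact ⟨s, ⟨s.2, h1⟩, h2⟩
    rw [hd]
    simp only [this, finsum_zero]
  have hsplit : ∑ᶠ P : Place k F, P.dord D (x : F) =
      ∑ᶠ P : Place k F, (e P : ℤ) * (π P).dord D₀ x + ∑ᶠ P : Place k F, d P := by
    rw [← finsum_add_distrib hfin1 hdfin]
    exact finsum_congr hkey
  rw [← hsumF, hsplit, hsum1, hsumE]

end

end Pool.Agent.helper53.AU
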