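import Pool.Agent.helper87.AU.SpecQ2

/-!
# Project au, module QE6: an invariant derivation
-/

namespace Pool.Agent.helper53.AU

open scoped Classical IntermediateField
open IntermediateField (fixedField)

noncomputable section

variable {k F : Type} [Field k] [Field F] [Algebra k F]

theorem QE6_mem_fixed (H : Subgroup (F ≃ₐ[k] F)) (z : F) :
    z ∈ fixedField H ↔ ∀ s ∈ H, s z = z := by
  rw [IntermediateField.mem_fixedField_iff]

/-- a derivation of `F` vanishing on the fixed field of a finite group vanishes -/
theorem QE6_zero (H : Subgroup (F ≃ₐ[k] F)) [Finite H] (D : Derivation k F F)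
    (h : ∀ z ∈ fixedField H, D z = 0) : D = 0 := by
  ext z
  have hsep : Algebra.IsSeparable (fixedField H) F :=
    inferInstanceAs (Algebra.IsSeparable (FixedPoints.subfield H F) F)
  have hs : (minpoly (fixedField H) z).Separable := Algebra.IsSeparable.isSeparable (fixedField H) z
  have hint : IsIntegral (fixedField H) z := Algebra.IsSeparable.isIntegral (fixedField H) z
  set p := minpoly (fixedField H) z with hp
  -- `D (aeval z q) = aeval z q' * D z`
  have key : ∀ q : Polynomial (fixedField H), D (Polynomial.aeval z q) =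
      Polynomial.aeval z (Polynomial.derivative q) * D z := by
    intro q
    induction q using Polynomial.induction_on' with
    | add a b ha hb => rw [map_add, map_add, ha, hb, Polynomial.derivative_add, map_add, add_mul]
    | monomial n a =>
      rw [Polynomial.aeval_monomial, Polynomial.derivative_monomial, Polynomial.aeval_monomial,
        D.leibniz, D.leibniz_pow]
      have h1 : D (algebraMap (fixedField H) F a) = 0 := h _ a.2
      rw [h1]
      simp only [smul_eq_mul, mul_zero, add_zero, map_mul, map_natCast, nsmul_eq_mul]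
      ring
  have h0 := key p
  rw [hp, minpoly.aeval, map_zero, ← hp] at h0
  have hne : Polynomial.aeval z (Polynomial.derivative p) ≠ 0 :=
    hs.aeval_derivative_ne_zero (by rw [hp]; exact minpoly.aeval _ _)
  have := h0.symm
  rcases mul_eq_zero.1 this with h2 | h2
  · exact absurd h2 hne
  · simpa using h2

/-- conjugate of a derivation -/
def QE6_conj (s : F ≃ₐ[k] F) (D : Derivation k F F) : Derivation k F F :=
  Derivation.mk' ((s : F →ₗ[k] F) ∘ₗ (D : F →ₗ[k] F) ∘ₗ (s.symm : F →ₗ[k] F)) (by
    intro a b
    simp [D.leibniz])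

theorem QE6_conj_apply (s : F ≃ₐ[k] F) (D : Derivation k F F) (f : F) :
    QE6_conj s D f = s (D (s.symm f)) := rfl

theorem QE6 (hK1 : QK1_stmt) (hK2 : QK2_stmt) : QE6_stmt := by
  intro k F _ _ _ _ hF H hH
  obtain ⟨D₁, hD₁⟩ := hK1 k F hF
  obtain ⟨x, hx, hDx⟩ : ∃ x ∈ fixedField H, D₁ x ≠ 0 := by
    by_contra h
    push Not at h
    exact hD₁ (QE6_zero H D₁ h)
  set D : Derivation k F F := (D₁ x)⁻¹ • D₁ with hD
  have hDx1 : D x = 1 := by
    rw [hD, Derivation.smul_apply, smul_eq_mul, inv_mul_cancel₀ hDx]
  have hD0 : D ≠ 0 := by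
    intro h
    rw [h] at hDx1
    simp at hDx1
  have hinv : ∀ s ∈ H, ∀ f : F, D (s f) = s (D f) := by
    intro s hs f
    obtain ⟨c, hc⟩ := hK2 k F hF D (QE6_conj s D) hD0
    have hsx : s x = x := (QE6_mem_fixed H x).1 hx s hs
    have hsx' : s.symm x = x := by
      conv_lhs => rw [← hsx]
      exact s.symm_apply_apply x
    have h1 : QE6_conj s D x = 1 := by
      rw [QE6_conj_apply, hsx', hDx1, map_one]
    rw [hc, Derivation.smul_apply, hDx1, smul_eq_mul, mul_one] at h1
    have h2 : QE6_conj s D (s f) = D (s f) := by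
      rw [hc, h1, one_smul]
    rw [← h2, QE6_conj_apply, AlgEquiv.symm_apply_apply]
  have hE : ∀ f : fixedField H, D (f : F) ∈ fixedField H := by
    intro f
    rw [QE6_mem_fixed]
    intro s hs
    rw [← hinv s hs, (QE6_mem_fixed H (f : F)).1 f.2 s hs]
  let D₀ : Derivation k (fixedField H) (fixedField H) :=
    Derivation.mk'
      { toFun := fun f => ⟨D (f : F), hE f⟩
        map_add' := fun a b => by
          apply Subtype.ext
          simp
        map_smul' := fun c a => by
          apply Subtype.ext
          simp } (by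
        intro a b
        apply Subtype.ext
        simp [D.leibniz])
  have hD₀ : ∀ f : fixedField H, ((D₀ f : fixedField H) : F) = D (f : F) := fun f => rfl
  refine ⟨D, D₀, hD0, ?_, hinv, hD₀⟩
  intro h
  have h1 := hD₀ ⟨x, hx⟩
  rw [h] at h1
  simp only [Derivation.zero_apply, ZeroMemClass.coe_zero] at h1
  rw [← h1] at hDx1
  exact zero_ne_one hDx1

end

end Pool.Agent.helper53.AU
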